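import Mathlib

set_option autoImplicit false

open scoped RealInnerProductSpace

namespace Pool.Agent.Results.MP_9149b8_co.Strict

/-- `m` is the worst-case coherence of the family `f`. -/
def IsCoh {N M : ℕ} (f : Fin N → EuclideanSpace ℝ (Fin M)) (m : ℝ) : Prop :=
  IsGreatest {t | ∃ i j, i ≠ j ∧ t = |⟪f i, f j⟫|} m

/-- The set of coherences of families of `N` unit vectors in dimension `M`. -/
def cohSet (N M : ℕ) : Set ℝ :=
  {m | ∃ f : Fin N → EuclideanSpace ℝ (Fin M), (∀ i, ‖f i‖ = 1) ∧ IsCoh f m}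

lemma exists_coh {N M : ℕ} (hN : 2 ≤ N) (f : Fin N → EuclideanSpace ℝ (Fin M)) :
    ∃ m, IsCoh f m := by
  have hfin : {t | ∃ i j, i ≠ j ∧ t = |⟪f i, f j⟫|}.Finite := by
    refine (Set.finite_range (fun p : Fin N × Fin N => |⟪f p.1, f p.2⟫|)).subset ?_
    rintro t ⟨i, j, -, rfl⟩
    exact ⟨(i, j), rfl⟩
  have hne : {t | ∃ i j, i ≠ j ∧ t = |⟪f i, f j⟫|}.Nonempty :=
    ⟨_, ⟨0, by omega⟩, ⟨1, by omega⟩, by simp, rfl⟩
  obtain ⟨m, hm, h⟩ := Set.exists_max_image _ id hfin hne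
  exact ⟨m, hm, fun t ht => h t ht⟩

lemma pos_of {N M : ℕ} (hM : M < N) (f : Fin N → EuclideanSpace ℝ (Fin M))
    (hf : ∀ i, ‖f i‖ = 1) (m : ℝ) (hm : IsCoh f m) : 0 < m := by
  by_contra h
  have ho : Orthonormal ℝ f := by
    refine ⟨hf, fun i j hij => ?_⟩
    have := hm.2 ⟨i, j, hij, rfl⟩
    have h2 := abs_nonneg ⟪f i, f j⟫
    exact abs_eq_zero.1 (by linarith)
  have := ho.linearIndependent.fintype_card_le_finrank
  simp at this
  omega

lemma exists_min {N M : ℕ} (hN : 2 ≤ N) (hM : 1 ≤ M) : ∃ m, IsLeast (cohSet N M) m := by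
  classical
  let K : Set (Fin N → EuclideanSpace ℝ (Fin M)) :=
    Set.pi Set.univ (fun _ => Metric.sphere 0 1)
  have hK : IsCompact K := isCompact_univ_pi (fun _ => isCompact_sphere 0 1)
  have hKne : K.Nonempty :=
    ⟨fun _ => EuclideanSpace.single ⟨0, hM⟩ 1, fun i _ => by simp⟩
  let P : Finset (Fin N × Fin N) := Finset.univ.filter (fun p => p.1 ≠ p.2)
  have hP : P.Nonempty := ⟨(⟨0, by omega⟩, ⟨1, by omega⟩), by simp [P]⟩
  let g : (Fin N → EuclideanSpace ℝ (Fin M)) → ℝ :=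
    fun f => P.sup' hP (fun p => |⟪f p.1, f p.2⟫|)
  have hg : Continuous g := by
    refine Continuous.finset_sup'_apply hP (fun p _ => ?_)
    fun_prop
  have hgc : ∀ f, IsCoh f (g f) := by
    intro f
    constructor
    · obtain ⟨p, hp, h⟩ := Finset.exists_mem_eq_sup' hP (fun p => |⟪f p.1, f p.2⟫|)
      exact ⟨p.1, p.2, by simpa [P] using hp, h⟩
    · rintro t ⟨i, j, hij, rfl⟩
      exact Finset.le_sup' (fun p : Fin N × Fin N => |⟪f p.1, f p.2⟫|) (b := (i, j))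
        (by simpa [P] using hij)
  obtain ⟨f, hf, hmin⟩ := hK.exists_isMinOn hKne hg.continuousOn
  refine ⟨g f, ⟨f, fun i => by simpa using hf i trivial, hgc f⟩, ?_⟩
  rintro m ⟨f', hf', hm⟩
  have := hmin (show f' ∈ K from fun i _ => by simpa using hf' i)
  rw [hm.unique (hgc f')]
  exact this

lemma improve {N M : ℕ} (hN : 2 ≤ N) (f : Fin N → EuclideanSpace ℝ (Fin M))
    (hf : ∀ i, ‖f i‖ = 1) (m : ℝ) (hm : IsCoh f m) (h0 : 0 < m) :
    ∃ m' ∈ cohSet N (M + 1), m' < m := by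
  have hm1 : m ≤ 1 := by
    obtain ⟨i, j, -, rfl⟩ := hm.1
    have := abs_real_inner_le_norm (f i) (f j)
    rwa [hf, hf, mul_one] at this
  let s : Fin N → ℝ := fun i => (m / 4) ^ (i : ℕ)
  have hs0 : ∀ i, 0 < s i := fun i => by positivity
  have hs1 : ∀ i, s i ≤ 1 := fun i => pow_le_one₀ (by positivity) (by linarith)
  let c : Fin N → ℝ := fun i => √(1 - s i ^ 2)
  have hc0 : ∀ i, 0 ≤ c i := fun i => Real.sqrt_nonneg _
  have hc2 : ∀ i, c i ^ 2 = 1 - s i ^ 2 := fun i =>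
    Real.sq_sqrt (by nlinarith [hs0 i, hs1 i])
  have hc1 : ∀ i, c i ≤ 1 - s i ^ 2 / 2 := fun i => by
    refine Real.sqrt_le_iff.2 ⟨by nlinarith [hs0 i, hs1 i], by nlinarith [sq_nonneg (s i ^ 2)]⟩
  let F : Fin N → EuclideanSpace ℝ (Fin (M + 1)) :=
    fun i => WithLp.toLp 2 (Fin.cons (s i) (fun k => c i * f i k))
  have hin : ∀ i j, ⟪F i, F j⟫ = s i * s j + c i * c j * ⟪f i, f j⟫ := by
    intro i j
    simp only [F, PiLp.inner_apply, Fin.sum_univ_succ, Fin.cons_zero, Fin.cons_succ,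
      RCLike.inner_apply, conj_trivial, Finset.mul_sum]
    congr 1
    · ring
    · exact Finset.sum_congr rfl (fun k _ => by ring)
  have hF : ∀ i, ‖F i‖ = 1 := by
    intro i
    have h1 := hin i i
    rw [real_inner_self_eq_norm_sq, real_inner_self_eq_norm_sq, hf] at h1
    have h2 : ‖F i‖ ^ 2 = 1 := by rw [h1]; nlinarith [hc2 i]
    have h3 := norm_nonneg (F i)
    nlinarith
  have key : ∀ i j, i < j → |⟪F i, F j⟫| < m := by
    intro i j hij
    have h1 : |⟪f i, f j⟫| ≤ m := hm.2 ⟨i, j, hij.ne, rfl⟩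
    have h2 : s j ≤ m / 4 * s i := by
      have : s j ≤ (m / 4) ^ ((i : ℕ) + 1) :=
        pow_le_pow_of_le_one (by positivity) (by linarith) (by exact_mod_cast hij)
      rw [pow_succ] at this
      linarith
    have h3 : c i * c j ≤ 1 - s i ^ 2 / 2 := by
      have : c j ≤ 1 := by nlinarith [hc1 j, sq_nonneg (s j)]
      nlinarith [hc0 i, hc1 i]
    have h4 : |⟪F i, F j⟫| ≤ s i * s j + c i * c j * |⟪f i, f j⟫| := by
      rw [hin]
      refine (abs_add_le _ _).trans (le_of_eq ?_)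
      rw [abs_of_pos (mul_pos (hs0 i) (hs0 j)), abs_mul,
        abs_of_nonneg (mul_nonneg (hc0 i) (hc0 j))]
    have h5 : c i * c j * |⟪f i, f j⟫| ≤ (1 - s i ^ 2 / 2) * m :=
      mul_le_mul h3 h1 (abs_nonneg _) (by nlinarith [hs0 i, hs1 i])
    have h6 : s i * s j ≤ s i * (m / 4 * s i) := mul_le_mul_of_nonneg_left h2 (hs0 i).le
    have h7 : 0 < m * s i ^ 2 := mul_pos h0 (pow_pos (hs0 i) 2)
    nlinarith
  obtain ⟨m', hm'⟩ := exists_coh hN F
  refine ⟨m', ⟨F, hF, hm'⟩, ?_⟩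
  obtain ⟨i, j, hij, rfl⟩ := hm'.1
  rcases lt_or_gt_of_ne hij with h | h
  · exact key i j h
  · rw [real_inner_comm]; exact key j i h

theorem result (N M : ℕ) (hN : 2 ≤ N) (hM : 1 ≤ M) (hMN : M ≤ N - 1) :
    ∃ a b : ℝ, IsLeast (cohSet N M) a ∧ IsLeast (cohSet N (M + 1)) b ∧ b < a := by
  obtain ⟨a, ha⟩ := exists_min hN hM
  obtain ⟨b, hb⟩ := exists_min (M := M + 1) hN (by omega)
  refine ⟨a, b, ha, hb, ?_⟩
  obtain ⟨f, hf, hm⟩ := ha.1
  obtain ⟨m', h1, h2⟩ := improve hN f hf a hm (pos_of (by omega) f hf a hm)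
  exact lt_of_le_of_lt (hb.2 h1) h2

end Pool.Agent.Results.MP_9149b8_co.Strict
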